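import Pool.Agent.Helper17.SO.Stmts

set_option autoImplicit false

open Finset

namespace Pool.Agent.Helper17.SO

lemma cls_jac (q : ℕ) [Fact q.Prime] (c : ℕ) :
    jacobiSym (c : ℤ) q = quadraticChar (ZMod q) (c : ZMod q) := by
  rw [← jacobiSym.legendreSym.to_jacobiSym q (c : ℤ)]
  simp [legendreSym]

lemma cls_one (q : ℕ) (hq : q.Prime) (hq2 : q ≠ 2) :
    2 * ((range q).filter (fun c : ℕ => jacobiSym (c : ℤ) q = 1)).card ≤ q - 1 := by
  have : Fact q.Prime := ⟨hq⟩
  have hsum : ∑ a : ZMod q, quadraticChar (ZMod q) a = 0 := by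
    apply quadraticChar_sum_zero
    rw [ZMod.ringChar_zmod_n]
    exact hq2
  have hsum2 : ∑ c ∈ range q, jacobiSym (c : ℤ) q = 0 := by
    rw [← hsum]
    apply Finset.sum_bij (fun (c : ℕ) _ => (c : ZMod q))
    · intro c _
      exact Finset.mem_univ _
    · intro a ha b hb hab
      rw [mem_range] at ha hb
      have := (ZMod.natCast_eq_natCast_iff' a b q).mp hab
      rwa [Nat.mod_eq_of_lt ha, Nat.mod_eq_of_lt hb] at this
    · intro b _
      refine ⟨b.val, mem_range.mpr (ZMod.val_lt b), ?_⟩
      simp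
    · intro c _
      exact cls_jac q c
  have hge : ∀ c ∈ range q, 2 * (if jacobiSym (c : ℤ) q = 1 then (1 : ℤ) else 0) ≤
      jacobiSym (c : ℤ) q + (if c = 0 then 0 else 1) := by
    intro c _
    by_cases hc : c = 0
    · subst hc
      have h0 : jacobiSym ((0 : ℕ) : ℤ) q = 0 := by
        rw [cls_jac]
        simp
      rw [h0]
      simp
    · rw [if_neg hc]
      rcases jacobiSym.trichotomy (c : ℤ) q with h | h | h
      · rw [h]
        simp
      · rw [h]
        simp
      · rw [h]
        simp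
  have h1 := Finset.sum_le_sum hge
  rw [Finset.sum_add_distrib, hsum2, ← Finset.mul_sum] at h1
  have h2 : ∑ c ∈ range q, (if jacobiSym (c : ℤ) q = 1 then (1 : ℤ) else 0) =
      (((range q).filter (fun c : ℕ => jacobiSym (c : ℤ) q = 1)).card : ℤ) := by
    rw [Finset.card_filter]
    push_cast
    rfl
  have h3 : ∑ c ∈ range q, (if c = 0 then (0 : ℤ) else 1) = (q : ℤ) - 1 := by
    obtain ⟨m, hm⟩ : ∃ m, q = m + 1 := ⟨q - 1, by have := hq.pos; omega⟩
    rw [hm, Finset.sum_range_succ']
    simp
  rw [h2, h3] at h1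
  have := hq.pos
  omega

lemma cls_mod (q D c : ℕ) (hD : q ∣ D) : jacobiSym ((c % D : ℕ) : ℤ) q = jacobiSym (c : ℤ) q := by
  apply jacobiSym.mod_left'
  have h1 : (c % D) ≡ c [MOD q] := (Nat.mod_modEq c D).of_dvd hD
  exact (Int.natCast_modEq_iff.mpr h1)

theorem st_CLS : ST_CLS := by
  intro T
  induction T using Finset.induction_on with
  | empty =>
    intro _
    simp
  | insert q T hqT ih =>
    intro hT
    have hTq := hT q (mem_insert_self q T)
    have hT' : ∀ r ∈ T, r.Prime ∧ r ≠ 2 := fun r hr => hT r (mem_insert_of_mem hr)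
    have ih' := ih hT'
    rw [Finset.prod_insert hqT, Finset.card_insert_of_notMem hqT]
    set D := ∏ r ∈ T, r with hD
    have hcop : Nat.Coprime q D := by
      rw [hD]
      apply Nat.Coprime.prod_right
      intro r hr
      rw [Nat.coprime_primes hTq.1 (hT' r hr).1]
      rintro rfl
      exact hqT hr
    have hDpos : 0 < D := Finset.prod_pos (fun r hr => (hT' r hr).1.pos)
    rw [Nat.totient_mul hcop, Nat.totient_prime hTq.1]
    have hcard : ((range (q * D)).filter
        (fun c : ℕ => ∀ r ∈ insert q T, jacobiSym (c : ℤ) r = 1)).card ≤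
        ((range q).filter (fun c : ℕ => jacobiSym (c : ℤ) q = 1)).card *
        ((range D).filter (fun c : ℕ => ∀ r ∈ T, jacobiSym (c : ℤ) r = 1)).card := by
      rw [← Finset.card_product]
      apply Finset.card_le_card_of_injOn (fun c => (c % q, c % D))
      · intro c hc
        rw [Finset.mem_coe, mem_filter, mem_range] at hc
        rw [Finset.mem_coe, Finset.mem_product, mem_filter, mem_filter, mem_range, mem_range]
        refine ⟨⟨Nat.mod_lt _ hTq.1.pos, ?_⟩, Nat.mod_lt _ hDpos, ?_⟩
        · rw [cls_mod q q c dvd_rfl]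
          exact hc.2 q (mem_insert_self q T)
        · intro r hr
          rw [cls_mod r D c (Finset.dvd_prod_of_mem _ hr)]
          exact hc.2 r (mem_insert_of_mem hr)
      · intro a ha b hb hab
        rw [Finset.mem_coe, mem_filter, mem_range] at ha hb
        simp only [Prod.mk.injEq] at hab
        have h1 : a ≡ b [MOD q * D] :=
          (Nat.modEq_and_modEq_iff_modEq_mul hcop).mp ⟨hab.1, hab.2⟩
        have h2 : a % (q * D) = b % (q * D) := h1
        rwa [Nat.mod_eq_of_lt ha.1, Nat.mod_eq_of_lt hb.1] at h2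
    have hone := cls_one q hTq.1 hTq.2
    calc 2 ^ (T.card + 1) * ((range (q * D)).filter
          (fun c : ℕ => ∀ r ∈ insert q T, jacobiSym (c : ℤ) r = 1)).card
        ≤ 2 ^ (T.card + 1) * (((range q).filter (fun c : ℕ => jacobiSym (c : ℤ) q = 1)).card *
          ((range D).filter (fun c : ℕ => ∀ r ∈ T, jacobiSym (c : ℤ) r = 1)).card) :=
          Nat.mul_le_mul_left _ hcard
      _ = (2 * ((range q).filter (fun c : ℕ => jacobiSym (c : ℤ) q = 1)).card) *
          (2 ^ T.card *
            ((range D).filter (fun c : ℕ => ∀ r ∈ T, jacobiSym (c : ℤ) r = 1)).card) := by ring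
      _ ≤ (q - 1) * D.totient := Nat.mul_le_mul hone ih'

end Pool.Agent.Helper17.SO
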